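import Pool.Agent.H.MP_b9c5ac_co.C

namespace Pool.Agent.Results.MP_b9c5ac_co.Yes

variable {W : Type}

/-- every vertex has exactly three neighbours -/
def Cubic (G : SimpleGraph W) : Prop := ∀ v, (G.neighborSet v).ncard = 3

/-- no set of fewer than `k` edges can be deleted so as to leave two different components that
each contain a cycle -/
def CycConn (k : ℕ) (G : SimpleGraph W) : Prop :=
  ∀ F : Finset (Sym2 W), F.card < k →
    ¬ ∃ (u v : W) (c : (G.deleteEdges F).Walk u u) (d : (G.deleteEdges F).Walk v v),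
      c.IsCycle ∧ d.IsCycle ∧ ¬ (G.deleteEdges F).Reachable u v

/-- a proper 3-edge-colouring exists -/
def ThreeEdgeColourable (G : SimpleGraph W) : Prop :=
  ∃ c : Sym2 W → Fin 3, ∀ u v w, G.Adj u v → G.Adj u w → v ≠ w → c s(u, v) ≠ c s(u, w)

def Snark (G : SimpleGraph W) : Prop :=
  Cubic G ∧ CycConn 4 G ∧ 5 ≤ G.egirth ∧ ¬ ThreeEdgeColourable G

/-- `T` is the tree `T_i`: all degrees are 1 or 3, and some vertex of degree 3 is at distance
exactly `i` from every leaf -/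
def IsTi (i : ℕ) (T : SimpleGraph W) : Prop :=
  T.IsTree ∧ (∀ v, (T.neighborSet v).ncard = 1 ∨ (T.neighborSet v).ncard = 3) ∧
    ∃ x, (T.neighborSet x).ncard = 3 ∧ ∀ v, (T.neighborSet v).ncard = 1 → T.dist x v = i

/-- a snark with a spanning tree `T_i` -/
def TiSnark (i : ℕ) (G : SimpleGraph W) : Prop :=
  Snark G ∧ ∃ T : SimpleGraph W, T ≤ G ∧ IsTi i T

open Pool.Agent.H.MP_b9c5ac_co in
theorem result : ∃ i : ℕ, 1 ≤ i ∧ ∃ (n : ℕ) (G : SimpleGraph (Fin n)),
    TiSnark i G ∧ 6 ≤ G.egirth := by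
  refine ⟨6, by norm_num, 190, G, ⟨⟨cubic, ?_, le_trans (by norm_num) girth6, not_col⟩,
    T, T_le, T_tree, ?_, 0, ?_, ?_⟩, girth6⟩
  · rintro F hF ⟨u, v, c, d, hc, hd, huv⟩
    exact huv (cyc4 F hF u v _ _ (c.adj_snd hc.not_nil) (d.adj_snd hd.not_nil))
  · intro v
    rw [T_deg]
    split_ifs <;> simp
  · rw [T_deg]; simp
  · intro v hv
    rw [T_deg] at hv
    rw [T_dist]
    split_ifs at hv with h
    · omega
    · exact (fT v).2.2 (by omega)

end Pool.Agent.Results.MP_b9c5ac_co.Yes
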